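import Pool.Agent.R579.SWd
import Pool.Agent.Helper152.WavTrans
import Pool.Agent.Helper152.WavFilt

set_option autoImplicit false
open MeasureTheory Filter Topology
open scoped ENNReal FourierTransform SchwartzMap

namespace Pool.Agent.Results.MP_27eeb4_an.NotBandLimited

/-- the functions `ψ_{j,k}(x) = 2^{j/2} ψ(2^j x - k)` -/
noncomputable def wav (ψ : ℝ → ℂ) (j k : ℤ) (x : ℝ) : ℂ :=
  (((2:ℝ) ^ ((j:ℝ) / 2) : ℝ) : ℂ) * ψ ((2:ℝ) ^ j * x - (k:ℝ))

/-- `ψ ∈ L²(ℝ)` and the system `ψ_{j,k}` is an orthonormal basis (orthonormal and total) of `L²(ℝ)` -/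
def IsOrthonormalWavelet (ψ : ℝ → ℂ) : Prop :=
  MemLp ψ 2 volume ∧
  (∀ j k j' k' : ℤ, ∫ x, wav ψ j k x * (starRingEnd ℂ) (wav ψ j' k' x) =
    if j = j' ∧ k = k' then 1 else 0) ∧
  ∀ f : ℝ → ℂ, MemLp f 2 volume →
    (∀ j k : ℤ, ∫ x, f x * (starRingEnd ℂ) (wav ψ j k x) = 0) → f =ᵐ[volume] 0

open Pool.Agent.R579.SW
open Pool.Agent.Helper152.Wav (Good)

theorem good_F : Good (fun y => h (y / 2) * ((g (y / 2) : ℝ) : ℂ)) := by
  refine Pool.Agent.Helper152.WavFilt.good_of_filter (fun y => ((g y : ℝ) : ℂ))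
    (fun y => ((m y : ℝ) : ℂ)) h ?_ ?_ ?_ ?_ ?_ ?_ ?_ ?_ ?_ ?_ ?_
  · exact Complex.measurable_ofReal.comp g_contDiff.continuous.measurable
  · exact Complex.measurable_ofReal.comp m_contDiff.continuous.measurable
  · exact h_contDiff.continuous.measurable
  · intro y; rw [m_per]
  · exact h_per
  · exact Eventually.of_forall fun y => by rw [g_two]; push_cast; rfl
  · refine Eventually.of_forall fun y => ?_
    have h1 := g_hasSum y
    have h2 : ∀ n : ℤ, ‖((g (y + n) : ℝ) : ℂ)‖ₑ ^ 2 = ENNReal.ofReal (g (y + n) ^ 2) := by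
      intro n
      rw [← ofReal_norm, ← ENNReal.ofReal_pow (norm_nonneg _), Complex.norm_real,
        Real.norm_eq_abs, sq_abs]
    simp_rw [h2]
    rw [← ENNReal.ofReal_tsum_of_nonneg (fun n => sq_nonneg _) h1.summable, h1.tsum_eq,
      ENNReal.ofReal_one]
  · refine Eventually.of_forall fun y => ?_
    rw [Complex.norm_real, Complex.norm_real, Real.norm_eq_abs, Real.norm_eq_abs, sq_abs, sq_abs]
    exact m_qmf y
  · refine Eventually.of_forall fun y => ?_
    unfold h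
    have he : ∀ z : ℝ, ‖Complex.exp (2 * Real.pi * Complex.I * z)‖ = 1 := by
      intro z
      have : 2 * (Real.pi : ℂ) * Complex.I * z = ((2 * Real.pi * z : ℝ) : ℂ) * Complex.I := by
        push_cast; ring
      rw [this, Complex.norm_exp_ofReal_mul_I]
    rw [norm_mul, norm_mul, he, he, one_mul, one_mul, Complex.norm_real, Complex.norm_real,
      Real.norm_eq_abs, Real.norm_eq_abs, sq_abs, sq_abs]
    exact m_qmf _
  · refine Eventually.of_forall fun y => ?_
    unfold h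
    have h1 : y + 1 / 2 + 1 / 2 = y + 1 := by ring
    rw [h1, m_per]
    have h2 : Complex.exp (2 * Real.pi * Complex.I * ((y + 1 / 2 : ℝ) : ℂ)) =
        - Complex.exp (2 * Real.pi * Complex.I * y) := by
      have : 2 * (Real.pi : ℂ) * Complex.I * ((y + 1 / 2 : ℝ) : ℂ) =
          2 * Real.pi * Complex.I * y + Real.pi * Complex.I := by push_cast; ring
      rw [this, Complex.exp_add, Complex.exp_pi_mul_I]
      ring
    rw [h2]
    simp only [map_mul, map_neg, Complex.conj_ofReal]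
    ring
  · refine Eventually.of_forall fun y => ?_
    apply tendsto_const_nhds.congr'
    obtain ⟨N1, hN1⟩ := exists_pow y
    filter_upwards [eventually_ge_atTop N1] with N hN
    have hp : (0:ℝ) < 2 ^ N := by positivity
    have h1 : 6 * |y / 2 ^ N| ≤ 2 ^ 0 := by
      rw [abs_div, abs_of_pos hp, pow_zero, ← mul_div_assoc, div_le_one hp]
      exact hN1.trans (pow_le_pow_right₀ (by norm_num) hN)
    rw [g_eq h1]
    simp [P]

/-- the Fourier transform of the wavelet -/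
noncomputable def F : 𝓢(ℝ, ℂ) :=
  SchwartzMap.compCLMOfContinuousLinearEquiv ℝ
    (ContinuousLinearEquiv.unitsEquivAut ℝ (Units.mk0 (1 / 2 : ℝ) (by norm_num)))
    (SchwartzMap.bilinLeftCLM (ContinuousLinearMap.lsmul ℝ ℝ : ℝ →L[ℝ] ℂ →L[ℝ] ℂ) h_temp gS)

theorem F_apply (y : ℝ) : F y = h (y / 2) * ((g (y / 2) : ℝ) : ℂ) := by
  have h1 : F y = g (y * (1 / 2)) • h (y * (1 / 2)) := rfl
  rw [h1, mul_one_div, mul_comm, Complex.real_smul]

/-! ### the support of `F` is unbounded -/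

theorem st (i : ℕ) : ∃ n : ℤ, (2:ℝ) ^ i * (4 / 3) = n + 1 / 3 ∨ (2:ℝ) ^ i * (4 / 3) = n - 1 / 3 := by
  induction i with
  | zero => exact ⟨1, Or.inl (by norm_num)⟩
  | succ i ih =>
    obtain ⟨n, hn | hn⟩ := ih
    · refine ⟨2 * n + 1, Or.inr ?_⟩
      rw [pow_succ, mul_comm ((2:ℝ) ^ i) 2, mul_assoc, hn]; push_cast; ring
    · refine ⟨2 * n - 1, Or.inl ?_⟩
      rw [pow_succ, mul_comm ((2:ℝ) ^ i) 2, mul_assoc, hn]; push_cast; ring

theorem m_st (i : ℕ) {s : ℝ} (h0 : 0 < s) (h1 : s < 1 / 12) : m (2 ^ i * (4 / 3) - s) ≠ 0 := by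
  obtain ⟨n, hn | hn⟩ := st i
  · have : (2:ℝ) ^ i * (4 / 3) - s = (1 / 3 - s) + n := by rw [hn]; ring
    rw [this, m_int]
    apply m_ne_zero <;> linarith
  · have : (2:ℝ) ^ i * (4 / 3) - s = (-(1 / 3) - s) + n := by rw [hn]; ring
    rw [this, m_int]
    apply m_ne_zero <;> linarith

theorem m_st' (i : ℕ) {s : ℝ} (h0 : 0 < s) (h1 : s < 1 / 12) :
    m (2 ^ i * (4 / 3) - s + 1 / 2) ≠ 0 := by
  obtain ⟨n, hn | hn⟩ := st i
  · have : (2:ℝ) ^ i * (4 / 3) - s + 1 / 2 = (-(1 / 6) - s) + ((n + 1 : ℤ) : ℝ) := by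
      rw [hn]; push_cast; ring
    rw [this, m_int]
    apply m_ne_zero <;> linarith
  · have : (2:ℝ) ^ i * (4 / 3) - s + 1 / 2 = (1 / 6 - s) + n := by rw [hn]; ring
    rw [this, m_int]
    apply m_ne_zero <;> linarith

theorem g_st {t : ℝ} (h0 : 0 < t) (h1 : t < 1 / 12) : g (4 / 3 - t) ≠ 0 := by
  rw [g_eq (N := 3)]
  · unfold P
    rw [Finset.prod_range_succ, Finset.prod_range_succ, Finset.prod_range_succ,
      Finset.prod_range_zero, one_mul]
    apply mul_ne_zero (mul_ne_zero _ _)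
    · apply m_ne_zero <;> norm_num <;> linarith
    · rw [← m_int _ (-1)]
      apply m_ne_zero <;> norm_num <;> linarith
    · apply m_ne_zero <;> norm_num <;> linarith
  · rw [abs_of_pos (by linarith)]
    linarith

theorem F_unbounded (J : ℕ) : ∃ y : ℝ, 2 ^ J ≤ y ∧ F y ≠ 0 := by
  have hp : (0:ℝ) < 2 ^ J := by positivity
  have hone : (1:ℝ) ≤ 2 ^ J := one_le_pow₀ (by norm_num)
  set t : ℝ := 1 / 24 / 2 ^ J with ht
  have ht0 : 0 < t := by positivity
  have ht2 : 2 ^ J * t = 1 / 24 := by rw [ht]; field_simp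
  have ht1 : t < 1 / 12 := by nlinarith
  refine ⟨2 * (2 ^ J * (4 / 3 - t)), ?_, ?_⟩
  · nlinarith
  · rw [F_apply]
    have h1 : 2 * (2 ^ J * (4 / 3 - t)) / 2 = 2 ^ J * (4 / 3) - 1 / 24 := by
      rw [← ht2]; ring
    have h2 : 2 * (2 ^ J * (4 / 3 - t)) / 2 = 2 ^ J * (4 / 3 - t) := by ring
    apply mul_ne_zero
    · rw [h1]
      unfold h
      apply mul_ne_zero (Complex.exp_ne_zero _)
      rw [Complex.ofReal_ne_zero]
      exact m_st' J (by norm_num) (by norm_num)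
    · rw [h2, Complex.ofReal_ne_zero, g_pow]
      apply mul_ne_zero _ (g_st ht0 ht1)
      unfold Q
      rw [Finset.prod_ne_zero_iff]
      intro i hi
      rw [Finset.mem_range] at hi
      rw [mul_sub]
      have h3 : (2:ℝ) ^ i * t ≤ 2 ^ J * t :=
        mul_le_mul_of_nonneg_right (pow_le_pow_right₀ (by norm_num) hi.le) ht0.le
      apply m_st i (by positivity)
      linarith

/-! ### the wavelet -/

/-- the wavelet -/
noncomputable def ψ : 𝓢(ℝ, ℂ) := 𝓕⁻ F

theorem wavelet : IsOrthonormalWavelet ψ := by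
  have hF : 𝓕 ψ = F := by
    unfold ψ
    exact FourierTransform.fourier_fourierInv_eq F
  have hmem : (ψ.toLp 2 (volume : Measure ℝ)) ∈ Pool.Agent.Helper152.WavTrans.SW := by
    apply Pool.Agent.Helper152.WavTrans.mem_of_good
    show Good _
    rw [SchwartzMap.toLp_fourier_eq, hF]
    apply Pool.Agent.Helper152.WavPath.good_congr (SchwartzMap.coeFn_toLp F 2 volume).symm
    have : (F : ℝ → ℂ) = fun y => h (y / 2) * ((g (y / 2) : ℝ) : ℂ) := funext F_apply
    rw [this]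
    exact good_F
  obtain ⟨b, hb⟩ := hmem
  have hb' : ∀ j k : ℤ, (⇑(b (j, k)) : ℝ → ℂ) =ᵐ[volume] wav ψ j k := by
    intro j k
    have h1 := Pool.Agent.Helper152.WavFilt.ae_aff (P := fun x => ψ.toLp 2 (volume : Measure ℝ) x = ψ x)
      (SchwartzMap.coeFn_toLp ψ 2 volume) ((2:ℝ) ^ j) (-(k:ℝ)) (by positivity)
    filter_upwards [hb j k, h1] with x hx1 hx2
    rw [hx1]
    unfold wav
    rw [sub_eq_add_neg, hx2]
  refine ⟨ψ.memLp 2 volume, ?_, ?_⟩
  · intro j k j' k'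
    rw [← Pool.Agent.Helper152.WavTrans.inner_eq (b (j', k')) (b (j, k)) (hb' j' k') (hb' j k)]
    have h1 := (orthonormal_iff_ite.1 b.orthonormal) (j', k') (j, k)
    rw [h1]
    by_cases hc : j = j' ∧ k = k'
    · rw [if_pos hc, if_pos (Prod.ext hc.1.symm hc.2.symm)]
    · rw [if_neg hc, if_neg]
      intro he
      rw [Prod.mk.injEq] at he
      exact hc ⟨he.1.symm, he.2.symm⟩
  · intro f hf hz
    have h1 : ∀ p : ℤ × ℤ, inner ℂ (b p) (hf.toLp f) = 0 := by
      rintro ⟨j, k⟩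
      rw [Pool.Agent.Helper152.WavTrans.inner_eq (b (j, k)) (hf.toLp f) (hb' j k) hf.coeFn_toLp]
      exact hz j k
    have h2 : b.repr (hf.toLp f) = 0 := by
      ext p
      rw [HilbertBasis.repr_apply_apply, h1]
      rfl
    have h3 : hf.toLp f = 0 := by
      have := b.repr.injective (h2.trans (map_zero b.repr).symm)
      exact this
    exact (hf.coeFn_toLp).symm.trans (h3 ▸ Lp.coeFn_zero ℂ 2 volume)

/-- There is an orthonormal wavelet in the Schwartz class which is not band-limited. -/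
theorem result : ∃ ψ : 𝓢(ℝ, ℂ), IsOrthonormalWavelet ψ ∧ ¬ HasCompactSupport (𝓕 (ψ : ℝ → ℂ)) := by
  refine ⟨ψ, wavelet, fun hc => ?_⟩
  have hF : (𝓕 (ψ : ℝ → ℂ)) = F := by
    rw [← SchwartzMap.fourier_coe]
    unfold ψ
    rw [FourierTransform.fourier_fourierInv_eq F]
  rw [hF] at hc
  obtain ⟨R, hR⟩ := hc.isCompact.isBounded.subset_closedBall 0
  obtain ⟨J, hJ⟩ := pow_unbounded_of_one_lt R (by norm_num : (1:ℝ) < 2)
  obtain ⟨y, hy1, hy2⟩ := F_unbounded J
  have h1 : y ∈ tsupport (F : ℝ → ℂ) := subset_tsupport _ hy2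
  have h2 := hR h1
  rw [Metric.mem_closedBall, dist_zero_right, Real.norm_eq_abs] at h2
  have := le_abs_self y
  linarith

end Pool.Agent.Results.MP_27eeb4_an.NotBandLimited
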